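import Pool.Agent.Helper5.XIdx.Main

set_option autoImplicit false

namespace Pool.Agent.Results.MP_172133_co.SubdivisionGap

open Pool.Agent.Helper5.XIdx

/-- For every nontrivial finite group `G` and every `r` there is a finite free `G`-simplicial
complex `K` of mapping index `1` such that the face poset of its `r`-fold barycentric subdivision
has cross-index `2`. -/
theorem result (G : Type) [Group G] [Finite G] [Nontrivial G] (r : ℕ) :
    ∃ K : Cx G, K.IsComplex ∧ K.Free ∧ IsLeast {k | K.ToE k} 1 ∧
      IsLeast {n | (Cx.sd^[r] K).ToQ n} 2 :=
  main G r

end Pool.Agent.Results.MP_172133_co.SubdivisionGap
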